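import Pool.Agent.TH526.PM.Main

set_option autoImplicit false

open MeasureTheory Set Filter
open scoped Topology

/-!
Critical site percolation and mixed site-bond percolation on `Z^(n+1)` with arbitrarily weak
long-range bonds in one direction.

The vertices are those of `Z^(n+1) = Z x Z^n`.  Independently, every site is open with probability
`a`, every nearest-neighbour bond is open with probability `p`, and every bond of length `k ≥ 2`
parallel to the first axis whose line has all its other coordinates divisible by `m` is open with
probability `1 - exp (-β k^(-s))`, `1 < s < 2`.  Site percolation is the case `p = 1`.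

For every `p > 0` there is almost surely no infinite open cluster at the critical density `acM` of
the sites, and this critical density is positive and tends to that of the nearest-neighbour model
with bonds of probability `p` as `β` tends to `0`: the whole critical curve converges.  For site
percolation, `p = 1`, it is less than `1`.

The convergence is proved by a version of the argument of Duminil-Copin and Tassion in which the
probability of the bonds is fixed (`TH526.PM.s_dctN`).  For `p = 1` it is in the starting library.
-/

namespace Pool.Agent.Results.MP_e13933_pr.SiteCriticalCurve

open Pool.Agent.W783.PC Pool.Agent.TH526 TH526.PM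

/-- No infinite open cluster on the critical curve of mixed site-bond percolation on `Z^(n+1)` with
weak long-range bonds in one direction; the critical curve converges to that of nearest-neighbour
mixed percolation on `Z^(n+1)`. -/
theorem result (n : ℕ) (hn : 1 ≤ n) (m : ℕ) (hm : 1 ≤ m) (s : ℝ) (hs : 1 < s) (hs2 : s < 2) :
    (∀ β : NNReal, 0 < β → ∀ p : unitInterval, 0 < p → 0 < acM n m s β p ∧
      ∀ᵐ ω ∂(pm (prob (n := n) (acM n m s β p) p β s m)), ∀ x : V n,
        (cl (EdI m) ω univ x).Finite) ∧
    (∀ β : NNReal, acM n m s β 1 < 1) ∧
    (∀ p : unitInterval, 0 < p →
      Tendsto (fun β : NNReal => (acM n m s β p : ℝ)) (𝓝 0) (𝓝 (acZM n p : ℝ))) :=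
  ⟨fun _ hβ p hp => ⟨lt_of_lt_of_le (acS_pos hs _) (acM_ge m s _ p),
    mixed_ae hn hm hs hs2 hβ hp⟩, fun β => acS_lt_one hn m s β, fun _ hp => acM_tendsto hs hp⟩

end Pool.Agent.Results.MP_e13933_pr.SiteCriticalCurve
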