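import Pool.Agent.TH966.SC.Upper
import Pool.Agent.TH966.SC.Low
import Pool.Agent.TH987.AN.Upper
import Pool.Agent.TH987.AN.Lower

/-!
Site percolation on `ℤ^(s+2) = ℤ² × ℤ^s` with periodic site probabilities: the sites with even
coordinates are open, the sites between two such sites at distance two from each other in a
direction of `ℤ²` are open with probability `p`, all other sites with probability `q`.
Percolation probability at and near the critical point.
-/

namespace Pool.Agent.Results.MP_e13933_pr.SiteCrossover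

open MeasureTheory

/-- The sites, `ℤ^(s+2) = ℤ² × ℤ^s`. -/
abbrev V (s : ℕ) : Type := (ℤ × ℤ) × (Fin s → ℤ)

/-- The hypercubic lattice `ℤ^(s+2)`: two sites are adjacent if they have the same `ℤ^s`
component and their `ℤ²` components are at distance one, or if they have the same `ℤ²` component
and their `ℤ^s` components are at distance one. -/
def lattice (s : ℕ) : SimpleGraph (V s) where
  Adj u v := (u.2 = v.2 ∧ |u.1.1 - v.1.1| + |u.1.2 - v.1.2| = 1) ∨
    (u.1 = v.1 ∧ ∑ i, |u.2 i - v.2 i| = 1)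
  symm := (Pool.Agent.TH987.AN.zd s).symm
  loopless := (Pool.Agent.TH987.AN.zd s).loopless

/-- All coordinates are even. -/
def Node {s : ℕ} (v : V s) : Prop := Even v.1.1 ∧ Even v.1.2 ∧ ∀ i, Even (v.2 i)

/-- Exactly one of the first two coordinates is odd, and all other coordinates are even. -/
def Link {s : ℕ} (v : V s) : Prop := Odd (v.1.1 + v.1.2) ∧ ∀ i, Even (v.2 i)

open scoped Classical in
/-- The probability that the site is open. -/
noncomputable def prob {s : ℕ} (p q : unitInterval) (v : V s) : unitInterval :=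
  if Node v then 1 else if Link v then p else q

/-- The law of a configuration: the site `v` is open (`true`) with probability `prob p q v`,
independently for all sites. -/
noncomputable def law (s : ℕ) (p q : unitInterval) : Measure (V s → Bool) :=
  Measure.infinitePi (fun v => ProbabilityTheory.bernoulliMeasure true false (prob p q v))

/-- The graph of the open sites. -/
def openGraph {s : ℕ} (ω : V s → Bool) : SimpleGraph (V s) where
  Adj u v := (lattice s).Adj u v ∧ ω u = true ∧ ω v = true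
  symm := ⟨fun _ _ h => ⟨h.1.symm, h.2.2, h.2.1⟩⟩
  loopless := ⟨fun _ h => h.1.ne rfl⟩

/-- The open cluster of the origin. -/
def cluster {s : ℕ} (ω : V s → Bool) : Set (V s) := {y | (openGraph ω).Reachable 0 y}

/-- The percolation probability: the probability that the cluster of the origin is infinite. -/
noncomputable def theta (s : ℕ) (p q : unitInterval) : ℝ :=
  (law s p q).real {ω | (cluster ω).Infinite}

/-- The critical point in `p` for given `q`. -/
noncomputable def pc (s : ℕ) (q : unitInterval) : unitInterval := sSup {p | theta s p q = 0}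

theorem result (s : ℕ) (hs : 1 ≤ s) :
    ∃ c C : ℝ, 0 < c ∧ 0 < C ∧
      -- upper bound for the percolation probability, for all parameters
      (∀ p q : unitInterval,
        theta s p q ≤ C * max ((q : ℝ) ^ (5 / 86 : ℝ))
          ((max ((p : ℝ) - 1 / 2) 0) ^ (5 / 36 : ℝ))) ∧
      -- lower bound of the same order
      (∀ p q : unitInterval, 1 / 2 - c * (q : ℝ) ^ (18 / 43 : ℝ) ≤ p →
        c * max ((q : ℝ) ^ (5 / 86 : ℝ)) ((max ((p : ℝ) - 1 / 2) 0) ^ (5 / 36 : ℝ)) ≤
          theta s p q) ∧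
      -- no percolation
      (∀ p q : unitInterval, (p : ℝ) < 1 / 2 - C * (q : ℝ) ^ (18 / 43 : ℝ) →
        theta s p q = 0) ∧
      -- location of the critical point, and the percolation probability there
      (∀ q : unitInterval,
        1 / 2 - C * (q : ℝ) ^ (18 / 43 : ℝ) ≤ pc s q ∧
        (pc s q : ℝ) ≤ 1 / 2 - c * (q : ℝ) ^ (18 / 43 : ℝ) ∧
        theta s (pc s q) q ≤ C * (q : ℝ) ^ (5 / 86 : ℝ)) := by
  obtain ⟨C1, hC1, h1⟩ := Pool.Agent.TH966.SC.theta_up s
  obtain ⟨c2, hc2, h2⟩ := TH291.NC.theta_lower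
  obtain ⟨C3, hC3, h3⟩ := Pool.Agent.TH966.SC.theta_zero s
  obtain ⟨c4, hc4, h4⟩ := Pool.Agent.TH987.AN.Lay.theta_lower3 (s := s) ⟨0, hs⟩
  have hlow : ∀ p q : unitInterval, (1 / 2 : ℝ) < p →
      c2 * ((p : ℝ) - 1 / 2) ^ (5 / 36 : ℝ) ≤ theta s p q := fun p q hp =>
    ((h2 p hp).trans (Pool.Agent.TH987.AN.theta_ge s p q)).trans
      (Pool.Agent.TH966.SC.theta_ge_bond s p q)
  have h4' : ∀ p q : unitInterval, 0 < (q:ℝ) →
    1 / 2 - c4 * (q : ℝ) ^ (18 / 43 : ℝ) ≤ p → c4 * (q : ℝ) ^ (5 / 86 : ℝ) ≤ theta s p q :=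
    fun p q hq hp => (h4 p q hq hp).trans (Pool.Agent.TH966.SC.theta_ge_bond s p q)
  have hθ0 : ∀ p q, 0 ≤ theta s p q := fun p q => measureReal_nonneg
  obtain ⟨c, hc⟩ : ∃ c : ℝ, c = min (min c2 c4) (1 / 4) := ⟨_, rfl⟩
  have hc0 : 0 < c := by rw [hc]; exact lt_min (lt_min hc2 hc4) (by norm_num)
  have hcc2 : c ≤ c2 := by rw [hc]; exact (min_le_left _ _).trans (min_le_left _ _)
  have hcc4 : c ≤ c4 := by rw [hc]; exact (min_le_left _ _).trans (min_le_right _ _)
  have hc14 : c ≤ 1 / 4 := by rw [hc]; exact min_le_right _ _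
  have lower : ∀ p q : unitInterval, 1 / 2 - c * (q : ℝ) ^ (18 / 43 : ℝ) ≤ p →
        c * max ((q : ℝ) ^ (5 / 86 : ℝ)) ((max ((p : ℝ) - 1 / 2) 0) ^ (5 / 36 : ℝ)) ≤
          theta s p q := by
    intro p q hp
    have hq0 : (0:ℝ) ≤ q := q.2.1
    rw [mul_max_of_nonneg _ _ hc0.le]
    apply max_le
    · rcases hq0.eq_or_lt with hq | hq
      · rw [← hq, Real.zero_rpow (by norm_num), mul_zero]
        exact hθ0 p q
      · have hq18 : 0 ≤ (q : ℝ) ^ (18 / 43 : ℝ) := by positivity
        have hq5 : 0 ≤ (q : ℝ) ^ (5 / 86 : ℝ) := by positivity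
        have h5 : c * (q : ℝ) ^ (18 / 43 : ℝ) ≤ c4 * (q : ℝ) ^ (18 / 43 : ℝ) :=
          mul_le_mul_of_nonneg_right hcc4 hq18
        exact (mul_le_mul_of_nonneg_right hcc4 hq5).trans (h4' p q hq (by linarith))
    · rcases le_or_gt (p:ℝ) (1 / 2) with hp2 | hp2
      · rw [max_eq_right (by linarith), Real.zero_rpow (by norm_num), mul_zero]
        exact hθ0 p q
      · rw [max_eq_left (by linarith)]
        refine le_trans (mul_le_mul_of_nonneg_right hcc2 ?_) (hlow p q hp2)
        apply Real.rpow_nonneg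
        linarith
  have zero : ∀ p q : unitInterval, (p : ℝ) < 1 / 2 - (C1 + C3) * (q : ℝ) ^ (18 / 43 : ℝ) →
        theta s p q = 0 := by
    intro p q hp
    have hq0 : (0:ℝ) ≤ q := q.2.1
    have hq18 : 0 ≤ (q : ℝ) ^ (18 / 43 : ℝ) := by positivity
    exact h3 p q (by nlinarith)
  refine ⟨c, C1 + C3, hc0, by positivity, ?_, lower, zero, fun q => ?_⟩
  · intro p q
    refine (h1 p q).trans (mul_le_mul_of_nonneg_right (by linarith) ?_)
    exact le_max_of_le_left (Real.rpow_nonneg q.2.1 _)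
  have hq0 : (0:ℝ) ≤ q := q.2.1
  have hq18 : 0 ≤ (q : ℝ) ^ (18 / 43 : ℝ) := by positivity
  have hq5 : 0 ≤ (q : ℝ) ^ (5 / 86 : ℝ) := by positivity
  -- the critical point
  have hle2 : (pc s q : ℝ) ≤ 1 / 2 - c * (q : ℝ) ^ (18 / 43 : ℝ) := by
    have hpos : ∀ p : unitInterval, 1 / 2 - c * (q : ℝ) ^ (18 / 43 : ℝ) < p → theta s p q ≠ 0 := by
      intro p hp h0
      have h5 := lower p q hp.le
      rw [h0] at h5
      have h6 : 0 < max ((q : ℝ) ^ (5 / 86 : ℝ)) ((max ((p : ℝ) - 1 / 2) 0) ^ (5 / 36 : ℝ)) := by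
        rcases hq0.eq_or_lt with hq | hq
        · rw [← hq, Real.zero_rpow (by norm_num), mul_zero] at hp
          apply lt_max_of_lt_right
          apply Real.rpow_pos_of_pos
          apply lt_max_of_lt_left
          linarith
        · apply lt_max_of_lt_left
          positivity
      have : 0 < c * max ((q : ℝ) ^ (5 / 86 : ℝ))
          ((max ((p : ℝ) - 1 / 2) 0) ^ (5 / 36 : ℝ)) := mul_pos hc0 h6
      linarith
    have hq1 : (q : ℝ) ^ (18 / 43 : ℝ) ≤ 1 := Real.rpow_le_one hq0 q.2.2 (by norm_num)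
    have hx0 : 0 ≤ 1 / 2 - c * (q : ℝ) ^ (18 / 43 : ℝ) := by nlinarith
    have hx1 : 1 / 2 - c * (q : ℝ) ^ (18 / 43 : ℝ) ≤ 1 := by nlinarith
    have h5 : pc s q ≤ (⟨1 / 2 - c * (q : ℝ) ^ (18 / 43 : ℝ), hx0, hx1⟩ : unitInterval) := by
      apply sSup_le
      intro p hp
      show (p:ℝ) ≤ 1 / 2 - c * (q : ℝ) ^ (18 / 43 : ℝ)
      by_contra hc'
      rw [not_le] at hc'
      exact hpos p hc' hp
    exact h5
  have hge : 1 / 2 - C3 * (q : ℝ) ^ (18 / 43 : ℝ) ≤ pc s q := by
    by_contra hc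
    rw [not_le] at hc
    obtain ⟨x, hx1, hx2⟩ := exists_between hc
    have hx0 : 0 ≤ x := (pc s q).2.1.trans hx1.le
    have hx3 : x ≤ 1 := by
      have : 0 ≤ C3 * (q : ℝ) ^ (18 / 43 : ℝ) := by positivity
      linarith
    have h4 : theta s ⟨x, hx0, hx3⟩ q = 0 := h3 ⟨x, hx0, hx3⟩ q hx2
    have h5 : (⟨x, hx0, hx3⟩ : unitInterval) ≤ pc s q := le_sSup h4
    have h6 : x ≤ pc s q := h5
    linarith
  refine ⟨by nlinarith, hle2, ?_⟩
  have hcq : 0 ≤ c * (q : ℝ) ^ (18 / 43 : ℝ) := by positivity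
  have h7 := h1 (pc s q) q
  rw [max_eq_right (by linarith : ((pc s q : unitInterval) : ℝ) - 1 / 2 ≤ 0),
    Real.zero_rpow (by norm_num), max_eq_left hq5] at h7
  have h8 : theta s (pc s q) q ≤ C1 * (q : ℝ) ^ (5 / 86 : ℝ) := h7
  nlinarith

end Pool.Agent.Results.MP_e13933_pr.SiteCrossover
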