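import Pool.Agent.TH526.PM.Main

set_option autoImplicit false

open MeasureTheory Set Filter
open scoped Topology

/-!
Finite-range perturbations of critical site percolation and mixed site-bond percolation on
`Z^(n+1)`.

The vertices are those of `Z^(n+1) = Z x Z^n`.  Independently, every site is open with probability
`a`, every nearest-neighbour bond is open with probability `p`, and every bond of length `k`,
`2 ≤ k ≤ K`, parallel to the first axis whose line has all its other coordinates divisible by `m` is
open with probability `1 - exp (-β k^(-s))`, `1 < s < 2`.  Site percolation is the case `p = 1`.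

1. For all `β > 0` and `p > 0` the critical site density of this finite-range model tends to that of
the full model (`K = ∞`) and the density of the infinite cluster of the finite-range model at its
critical point tends to zero as `K` tends to infinity.

2. For every `p > 0`, `ε > 0`, all small `β > 0` and all `K ≥ K0(β)` the critical site density of
this finite-range model differs by at most `ε` from that of the nearest-neighbour model with bonds
of probability `p`, and its percolation probability at its critical point is at most `ε`.

For `p = 1` these are lemmas of the starting library `W783`.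
-/

namespace Pool.Agent.Results.MP_e13933_pr.SiteFiniteRange

open Pool.Agent.W783.PC Pool.Agent.TH526 TH526.PM

/-- Finite-range percolation models on `Z^(n+1)`: the percolation probability on the critical curve
tends to zero with growing range, and for every bond probability `p > 0` there are finite-range
models arbitrarily close to the nearest-neighbour mixed model whose percolation probability at
criticality is arbitrarily small. -/
theorem result (n : ℕ) (hn : 1 ≤ n) (m : ℕ) (hm : 1 ≤ m) (s : ℝ) (hs : 1 < s) (hs2 : s < 2) :
    (∀ β : NNReal, 0 < β → ∀ p : unitInterval, 0 < p →
      Tendsto (fun K : ℕ => (acMK n m s β p K : ℝ)) atTop (𝓝 (acM n m s β p : ℝ)) ∧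
      Tendsto (fun K : ℕ => thetaK n (acMK n m s β p K) p β s m K) atTop (𝓝 0)) ∧
    ∀ p : unitInterval, 0 < p → ∀ ε : ℝ, 0 < ε →
      ∃ β0 : NNReal, 0 < β0 ∧ ∀ β : NNReal, 0 < β → β ≤ β0 → ∃ K0 : ℕ, ∀ K ≥ K0,
        |(acMK n m s β p K : ℝ) - acZM n p| ≤ ε ∧
          thetaK n (acMK n m s β p K) p β s m K ≤ ε :=
  ⟨fun _ hβ _ hp => ⟨acMK_tendsto hn hm hs hs2 hβ hp, thetaKM_tendsto hn hm hs hs2 hβ hp⟩,
    fun _ hp _ hε => site_finiteM hn hm hs hs2 hp hε⟩

end Pool.Agent.Results.MP_e13933_pr.SiteFiniteRange
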