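import Pool.Agent.TH489.PL.FinalS

set_option autoImplicit false

open MeasureTheory Set Filter
open scoped Topology

/-!
Site percolation on `Z^(n+1)` with weak long-range bonds in one direction: power law for the
critical cluster.

The vertices are those of `Z^(n+1) = Z x Z^n`, open with probability `a`, independently.  All
nearest-neighbour bonds are open, and every bond of length `k ≥ 2` parallel to the first axis is
open with probability `1 - exp (-β k^(-s))`, `1 < s < 3/2`, `β > 0` (arbitrarily small).  For every
`x < 3/2 - s` there is a constant `C`, which does not depend on the dimension, such that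
`P(|K| ≥ N) ≤ C N^(-x)` for the open cluster `K` of the origin, at every `a` without percolation, in
particular at the critical point `a_c(β)`, which tends to the critical point of site percolation on
`Z^(n+1)` as `β → 0`.
-/

namespace Pool.Agent.Results.MP_e13933_pr.SitePowerLawTail

open Pool.Agent.W783.PC Pool.Agent.TH489.PL

/-- Power law for the size of the cluster of the origin at the critical point and below. -/
theorem result (s : ℝ) (hs : 1 < s) (hs2 : s < 3 / 2) (β : NNReal) (hβ : 0 < β) (x : ℝ)
    (hx : x < 3 / 2 - s) :
    ∃ C : ℝ, ∀ n : ℕ, 1 ≤ n → ∀ a : unitInterval,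
      (theta n a 1 β s 1 = 0 ∨ a = acS n 1 s β) →
      ∀ N : ℕ, 1 ≤ N → (pm (prob (n := n) a 1 β s 1)).real
        {ω | (N : ℕ∞) ≤ (cl (EdI 1) ω univ (0 : V n)).encard} ≤ C * (N : ℝ) ^ (-x) := by
  obtain ⟨C, hC⟩ := site_final hs hs2 hx hβ
  refine ⟨C, fun n hn a ha => hC n a ?_⟩
  rcases ha with ha | rfl
  · exact ha
  · exact site_crit hn le_rfl hs (by linarith) hβ

end Pool.Agent.Results.MP_e13933_pr.SitePowerLawTail
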